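import Pool.Agent.H13.PlatMain
import Pool.Agent.H14.EquivK

/-!
# Explicit gaps between the exponents of `k`-SAT, and the exponential time hypothesis

`satExp k` is the exponent `s_k` of `k`-SAT for Mathlib's multi-stack machines.  With `K = 5 k ^ 2`
we show `s_k + s_K ^ (k - 1) / P_k ≤ s_K`, where `P_k` is an explicit product.  In particular, for
every single `k ≥ 3`, the exponential time hypothesis holds if and only if `s_k < s_{5 k ^ 2}`.
-/

set_option autoImplicit false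

namespace Pool.Agent.H13.Parked.ExplicitGaps

open Pool.Agent.H14.ETH

/-- For all `k ≥ 3`, with `K = 5 k ^ 2`: the exponential time hypothesis (all `s_j`, `j ≥ 3`, are
positive) is equivalent to `s_k < s_K`, and `s_k + s_K ^ (k - 1) / P_k ≤ s_K` unconditionally. -/
theorem result :
    ∀ k : ℕ, 3 ≤ k →
      ((∀ j : ℕ, 3 ≤ j → 0 < satExp j) ↔ satExp k < satExp (5 * k ^ 2)) ∧
        satExp k + satExp (5 * k ^ 2) ^ (k - 1) /
          ∏ j ∈ Finset.Icc 3 k, (1 + (j : ℝ) * (3 * 2 ^ (j - 1) + 1)) ≤ satExp (5 * k ^ 2) := by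
  intro k hk
  have h1 : satExp k + satExp (5 * k ^ 2) ^ (k - 1) /
      ∏ j ∈ Finset.Icc 3 k, (1 + (j : ℝ) * (3 * 2 ^ (j - 1) + 1)) ≤ satExp (5 * k ^ 2) :=
    Pool.Agent.H83.P13.gap_main (by omega)
  refine ⟨⟨fun hpos => ?_, fun h => eth_of_lt hk h⟩, h1⟩
  have h2 : 0 < satExp (5 * k ^ 2) := hpos _ (by nlinarith)
  have h3 := Pool.Agent.H83.P13.Pk_pos k
  have h4 : 0 < satExp (5 * k ^ 2) ^ (k - 1) /
      ∏ j ∈ Finset.Icc 3 k, (1 + (j : ℝ) * (3 * 2 ^ (j - 1) + 1)) :=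
    div_pos (pow_pos h2 _) h3
  linarith

end Pool.Agent.H13.Parked.ExplicitGaps
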